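import Pool.Agent.Work.MP_4ac3ef_co.Rigid

/-!
# MP_4ac3ef_co: every infinite group without involutions is represented by a tournament whose
automorphism group has at most six orbits
-/

namespace Pool.Agent.Results.MP_4ac3ef_co.OrbitBound

open Set Cardinal Pool.Agent.Work.MP_4ac3ef_co

universe u

/-- A tournament on the vertex set `V`: a loopless digraph in which for any two distinct vertices
exactly one of the two arcs is present. -/
structure Tournament (V : Type u) where
  /-- the arc relation -/
  E : V → V → Prop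
  irrefl : ∀ x, ¬ E x x
  exactly_one : ∀ x y, x ≠ y → (E x y ↔ ¬ E y x)

/-- The automorphism group of a tournament, as a group of permutations of the vertices. -/
def Tournament.Aut {V : Type u} (T : Tournament V) : Subgroup (Equiv.Perm V) where
  carrier := {σ | ∀ x y, T.E x y ↔ T.E (σ x) (σ y)}
  mul_mem' := by
    intro σ τ hσ hτ x y
    rw [hτ, hσ]
    rfl
  one_mem' := by
    intro x y
    rfl
  inv_mem' := by
    intro σ hσ x y
    have h1 := hσ (σ⁻¹ x) (σ⁻¹ y)
    have h2 : σ (σ⁻¹ x) = x := σ.apply_symm_apply x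
    have h3 : σ (σ⁻¹ y) = y := σ.apply_symm_apply y
    rw [h2, h3] at h1
    exact h1.symm

section Construction

variable {G : Type u} [Group G]

/-- The connection sets between different levels (`i < j`). -/
def A (F : Fin 6 → Finset G) (H K R M N : Set G) (i j : Fin 6) : Set G :=
  if i = 0 then (F j : Set G)
  else if i = 1 then {1}
  else if i = 2 then (if j = 3 then H else if j = 4 then K else R)
  else if i = 3 then (if j = 4 then M else N)
  else ∅

/-- The arc relation on `G × Fin 6`. -/
def rel (P : Set G) (A : Fin 6 → Fin 6 → Set G) (v w : G × Fin 6) : Prop :=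
  (v.2 = w.2 ∧ v.1⁻¹ * w.1 ∈ P) ∨ (v.2 < w.2 ∧ v.1⁻¹ * w.1 ∈ A v.2 w.2) ∨
    (w.2 < v.2 ∧ w.1⁻¹ * v.1 ∉ A w.2 v.2)

lemma rel_same {P : Set G} {A : Fin 6 → Fin 6 → Set G} (x y : G) (i : Fin 6) :
    rel P A (x, i) (y, i) ↔ x⁻¹ * y ∈ P := by
  simp [rel]

lemma rel_up {P : Set G} {A : Fin 6 → Fin 6 → Set G} (x y : G) {i j : Fin 6} (hij : i < j) :
    rel P A (x, i) (y, j) ↔ x⁻¹ * y ∈ A i j := by
  simp [rel, hij, hij.ne, hij.not_gt]

lemma rel_down {P : Set G} {A : Fin 6 → Fin 6 → Set G} (x y : G) {i j : Fin 6} (hij : j < i) :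
    rel P A (x, i) (y, j) ↔ y⁻¹ * x ∉ A j i := by
  simp [rel, hij, hij.ne', hij.not_gt]

/-- The tournament. -/
def tour (P : Set G) (A : Fin 6 → Fin 6 → Set G) (hP1 : (1 : G) ∉ P)
    (hP : ∀ x : G, x ≠ 1 → (x ∈ P ↔ x⁻¹ ∉ P)) : Tournament (G × Fin 6) where
  E := rel P A
  irrefl := by
    rintro ⟨x, i⟩
    rw [rel_same]
    simpa using hP1
  exactly_one := by
    rintro ⟨x, i⟩ ⟨y, j⟩ hne
    rcases lt_trichotomy i j with hij | rfl | hij
    · rw [rel_up x y hij, rel_down y x hij, not_not]
    · rw [rel_same, rel_same]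
      have hxy : x⁻¹ * y ≠ 1 := by
        intro hcon
        apply hne
        have : y = x := by
          have := congrArg (fun z => x * z) hcon
          simpa using this
        rw [this]
      rw [hP _ hxy]
      simp
    · rw [rel_up y x hij, rel_down x y hij]

/-- Left multiplication. -/
def lmul (a : G) : Equiv.Perm (G × Fin 6) := Equiv.prodCongr (Equiv.mulLeft a) (Equiv.refl _)

lemma lmul_apply (a x : G) (i : Fin 6) : lmul a (x, i) = (a * x, i) := rfl

lemma lmul_mem {P : Set G} {A : Fin 6 → Fin 6 → Set G} (hP1 : (1 : G) ∉ P)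
    (hP : ∀ x : G, x ≠ 1 → (x ∈ P ↔ x⁻¹ ∉ P)) (a : G) : lmul a ∈ (tour P A hP1 hP).Aut := by
  rintro ⟨x, i⟩ ⟨y, j⟩
  change rel P A (x, i) (y, j) ↔ rel P A (a * x, i) (a * y, j)
  have h1 : (a * x)⁻¹ * (a * y) = x⁻¹ * y := by group
  have h2 : (a * y)⁻¹ * (a * x) = y⁻¹ * x := by group
  simp only [rel, h1, h2]

/-- The homomorphism from `G` to the automorphism group. -/
def toAut (P : Set G) (A : Fin 6 → Fin 6 → Set G) (hP1 : (1 : G) ∉ P)
    (hP : ∀ x : G, x ≠ 1 → (x ∈ P ↔ x⁻¹ ∉ P)) : G →* (tour P A hP1 hP).Aut where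
  toFun a := ⟨lmul a, lmul_mem hP1 hP a⟩
  map_one' := by
    apply Subtype.ext
    ext ⟨x, i⟩ <;> simp [lmul_apply]
  map_mul' a b := by
    apply Subtype.ext
    ext ⟨x, i⟩ <;> simp [lmul_apply, mul_assoc]

/-- Vertices of level zero are characterised by their out-neighbourhoods. -/
def IsZero (E : G × Fin 6 → G × Fin 6 → Prop) (v : G × Fin 6) : Prop :=
  ∀ u, u ≠ v → {w | E u w ∧ ¬ E v w}.Infinite

omit [Group G] in
lemma IsZero_iff_of_aut (E : G × Fin 6 → G × Fin 6 → Prop) (σ : Equiv.Perm (G × Fin 6))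
    (hσ : ∀ x y, E x y ↔ E (σ x) (σ y)) (v : G × Fin 6) : IsZero E (σ v) ↔ IsZero E v := by
  have himg : ∀ u, {w | E (σ u) w ∧ ¬ E (σ v) w} = σ '' {w | E u w ∧ ¬ E v w} := by
    intro u
    ext w
    constructor
    · rintro ⟨h1, h2⟩
      refine ⟨σ.symm w, ⟨?_, ?_⟩, by simp⟩
      · rw [hσ]; simpa using h1
      · rw [hσ]; simpa using h2
    · rintro ⟨w, ⟨h1, h2⟩, rfl⟩
      exact ⟨(hσ _ _).1 h1, fun h => h2 ((hσ _ _).2 h)⟩
  constructor
  · intro h u hu
    have h1 := h (σ u) (fun hcon => hu (σ.injective hcon))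
    rw [himg] at h1
    exact (Set.infinite_image_iff σ.injective.injOn).1 h1
  · intro h u hu
    have h1 := h (σ.symm u) (fun hcon => hu (by rw [← hcon]; simp))
    have h2 := himg (σ.symm u)
    rw [Equiv.apply_symm_apply] at h2
    rw [h2]
    exact (Set.infinite_image_iff σ.injective.injOn).2 h1

/-- The number of in-neighbours of level zero. -/
noncomputable def cnt (E : G × Fin 6 → G × Fin 6 → Prop) (v : G × Fin 6) : ℕ :=
  {w | IsZero E w ∧ E w v}.ncard

omit [Group G] in
lemma cnt_of_aut (E : G × Fin 6 → G × Fin 6 → Prop) (σ : Equiv.Perm (G × Fin 6))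
    (hσ : ∀ x y, E x y ↔ E (σ x) (σ y)) (v : G × Fin 6) : cnt E (σ v) = cnt E v := by
  unfold cnt
  have : {w | IsZero E w ∧ E w (σ v)} = σ '' {w | IsZero E w ∧ E w v} := by
    ext w
    constructor
    · rintro ⟨h1, h2⟩
      refine ⟨σ.symm w, ⟨?_, ?_⟩, by simp⟩
      · rw [← IsZero_iff_of_aut E σ hσ]; simpa using h1
      · rw [hσ]; simpa using h2
    · rintro ⟨w, ⟨h1, h2⟩, rfl⟩
      exact ⟨(IsZero_iff_of_aut E σ hσ w).2 h1, (hσ _ _).1 h2⟩
  rw [this, Set.ncard_image_of_injective _ σ.injective]

end Construction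

/-- Every infinite group `G` without elements of order `2` is the automorphism group of a
tournament on which it has at most `6` vertex orbits. -/
theorem result : ∀ (G : Type u) [Group G] [Infinite G], (∀ x : G, orderOf x ≠ 2) →
    ∃ (V : Type u) (T : Tournament V), Nonempty (T.Aut ≃* G) ∧
      #(MulAction.orbitRel.Quotient T.Aut V) ≤ 6 := by
  classical
  intro G _ _ hord
  have hinv : ∀ x : G, x * x = 1 → x = 1 := by
    intro x hx
    by_contra hne
    apply hord x
    exact orderOf_eq_prime (by rw [pow_two]; exact hx) hne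
  obtain ⟨H, K, R, M, N, P, hP1, hP, hgen, hrig⟩ := exists_structure G hinv
  obtain ⟨F, hF1, hFcard⟩ : ∃ F : Fin 6 → Finset G, F 1 = {1} ∧ ∀ j, (F j).card = j.val := by
    refine ⟨fun j => if j = 1 then {1} else
      Classical.choose (Infinite.exists_subset_card_eq G j.val), by simp, ?_⟩
    intro j
    by_cases hj : j = 1
    · subst hj; simp
    · simp only [hj, if_false]
      exact Classical.choose_spec (Infinite.exists_subset_card_eq G j.val)
  set B : Fin 6 → Fin 6 → Set G := A F H K R M N with hB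
  have hB0 : ∀ j, B 0 j = (F j : Set G) := fun j => by simp [hB, A]
  have hB1 : ∀ j, B 1 j = {1} := fun j => by simp [hB, A]
  set E := rel P B with hE
  set T := tour P B hP1 hP with hT
  -- infinitely many elements outside a translate of `P`
  have hPc : {x : G | x ∉ P}.Infinite := by
    obtain ⟨y, hy⟩ := exists_ne (1 : G)
    have h1 := hgen y hy
    have h2 : {p | p ∈ P ∧ y⁻¹ * p ∉ P} ⊆ P := fun p hp => hp.1
    have h3 : P.Infinite := h1.mono h2
    have h4 : ((fun x : G => x⁻¹) '' P).Infinite := h3.image (inv_injective.injOn)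
    refine h4.mono ?_
    rintro _ ⟨p, hp, rfl⟩
    have hp1 : p ≠ 1 := fun h => hP1 (h ▸ hp)
    exact (hP p hp1).1 hp
  -- level zero is recognised
  have hzero : ∀ x i, IsZero E (x, i) ↔ i = 0 := by
    intro x i
    constructor
    · intro h
      by_contra hi
      have hi0 : (0 : Fin 6) < i := Fin.pos_of_ne_zero hi
      -- compare with any vertex of level zero
      have h1 := h (x, 0) (by intro hcon; exact hi (congrArg Prod.snd hcon).symm)
      apply h1
      have hfin : ((⋃ j : Fin 6, (fun f : G => (x * f, j)) '' (F j : Set G)) ∪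
          (fun f : G => (x * f⁻¹, (0 : Fin 6))) '' (F i : Set G)).Finite := by
        apply Set.Finite.union
        · apply Set.finite_iUnion
          intro j
          exact (Finset.finite_toSet _).image _
        · exact (Finset.finite_toSet _).image _
      refine hfin.subset ?_
      rintro ⟨y, j⟩ ⟨h2, h3⟩
      by_cases hj : j = 0
      · subst hj
        right
        rw [hE, rel_down x y hi0, not_not, hB0] at h3
        exact ⟨_, h3, by simp⟩
      · left
        have hj0 : (0 : Fin 6) < j := Fin.pos_of_ne_zero hj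
        rw [hE, rel_up x y hj0, hB0] at h2
        rw [Set.mem_iUnion]
        exact ⟨j, _, h2, by simp⟩
    · rintro rfl
      rintro ⟨y, j⟩ hne
      by_cases hj : j = 0
      · subst hj
        have hyx : y⁻¹ * x ≠ 1 := by
          intro hcon
          apply hne
          have : x = y := by
            have := congrArg (fun z => y * z) hcon
            simpa using this
          rw [this]
        have h1 := hgen _ hyx
        have h2 : ((fun p : G => (y * p, (0 : Fin 6))) '' {p | p ∈ P ∧ (y⁻¹ * x)⁻¹ * p ∉ P}).Infinite := by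
          apply h1.image
          intro a _ b _ hab
          simpa using hab
        refine h2.mono ?_
        rintro _ ⟨p, ⟨hp1, hp2⟩, rfl⟩
        constructor
        · rw [hE, rel_same]; simpa using hp1
        · rw [hE, rel_same]
          have : x⁻¹ * (y * p) = (y⁻¹ * x)⁻¹ * p := by group
          rw [this]
          exact hp2
      · have hj0 : (0 : Fin 6) < j := Fin.pos_of_ne_zero hj
        have h1 : ((fun p : G => (x * p, (0 : Fin 6))) '' {p | p ∉ P}).Infinite := by
          apply hPc.image
          intro a _ b _ hab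
          simpa using hab
        have h2 : ((fun f : G => (y * f⁻¹, (0 : Fin 6))) '' (F j : Set G)).Finite :=
          (Finset.finite_toSet _).image _
        refine (h1.sdiff h2).mono ?_
        rintro _ ⟨⟨p, hp, rfl⟩, hnot⟩
        constructor
        · rw [hE, rel_down y (x * p) hj0, hB0]
          intro hcon
          apply hnot
          exact ⟨_, hcon, by simp⟩
        · rw [hE, rel_same]
          simpa using hp
  -- all other levels are recognised
  have hcnt : ∀ x (i : Fin 6), 0 < i → cnt E (x, i) = i.val := by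
    intro x i hi
    unfold cnt
    have : {w | IsZero E w ∧ E w (x, i)} = (fun f : G => (x * f⁻¹, (0 : Fin 6))) '' (F i : Set G) := by
      ext ⟨y, j⟩
      constructor
      · rintro ⟨h1, h2⟩
        rw [hzero] at h1
        subst h1
        rw [hE, rel_up y x hi, hB0] at h2
        exact ⟨_, h2, by simp⟩
      · rintro ⟨f, hf, hfe⟩
        simp only [Prod.mk.injEq] at hfe
        obtain ⟨rfl, rfl⟩ := hfe
        refine ⟨(hzero _ _).2 rfl, ?_⟩
        rw [hE, rel_up _ _ hi, hB0]
        simpa using hf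
    rw [this, Set.ncard_image_of_injective, Set.ncard_coe_finset, hFcard]
    intro a b hab
    simpa using hab
  -- automorphisms preserve the levels
  have hlev : ∀ σ ∈ T.Aut, ∀ v : G × Fin 6, (σ v).2 = v.2 := by
    intro σ hσ v
    have hσ' : ∀ x y, E x y ↔ E (σ x) (σ y) := hσ
    by_cases h0 : v.2 = 0
    · have h1 : IsZero E v := (hzero v.1 v.2).2 h0
      have h2 : IsZero E (σ v) := (IsZero_iff_of_aut E σ hσ' v).2 h1
      rw [h0]
      exact (hzero (σ v).1 (σ v).2).1 h2
    · have h1 : (σ v).2 ≠ 0 := by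
        intro hcon
        have h2 : IsZero E (σ v) := (hzero (σ v).1 (σ v).2).2 hcon
        exact h0 ((hzero v.1 v.2).1 ((IsZero_iff_of_aut E σ hσ' v).1 h2))
      have h2 := cnt_of_aut E σ hσ' v
      have h3 := hcnt v.1 v.2 (Fin.pos_of_ne_zero h0)
      have h4 := hcnt (σ v).1 (σ v).2 (Fin.pos_of_ne_zero h1)
      apply Fin.ext
      rw [← h3, ← h4]
      exact h2
  -- every automorphism is a left multiplication
  have hsurj : ∀ σ ∈ T.Aut, ∃ a : G, σ = lmul a := by
    intro σ hσ
    have hσ' : ∀ x y, E x y ↔ E (σ x) (σ y) := hσ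
    have hσi : ∀ x i, σ (x, i) = ((σ (x, i)).1, i) := by
      intro x i
      exact Prod.ext rfl (hlev σ hσ (x, i))
    -- the matchings
    have hm0 : ∀ x, (σ (x, 0)).1 = (σ (x, 1)).1 := by
      intro x
      have h1 : E (x, 0) (x, 1) := by
        rw [hE, rel_up x x (by decide), hB0, hF1]; simp
      have h2 := (hσ' _ _).1 h1
      rw [hσi x 0, hσi x 1, hE, rel_up _ _ (by decide), hB0, hF1] at h2
      have h3 : (σ (x, 0)).1⁻¹ * (σ (x, 1)).1 = 1 := by simpa using h2
      exact (inv_mul_eq_one.1 h3)
    have hm : ∀ x (j : Fin 6), 1 < j → (σ (x, j)).1 = (σ (x, 1)).1 := by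
      intro x j hj
      have h1 : E (x, 1) (x, j) := by
        rw [hE, rel_up x x hj, hB1]; simp
      have h2 := (hσ' _ _).1 h1
      rw [hσi x 1, hσi x j, hE, rel_up _ _ hj, hB1] at h2
      have h3 : (σ (x, 1)).1⁻¹ * (σ (x, j)).1 = 1 := by simpa using h2
      exact (inv_mul_eq_one.1 h3).symm
    have hall : ∀ x (j : Fin 6), σ (x, j) = ((σ (x, 1)).1, j) := by
      intro x j
      rw [hσi x j]
      by_cases h0 : j = 0
      · subst h0; rw [hm0]
      · by_cases h1 : j = 1
        · subst h1; rfl
        · rw [hm x j (by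
            have := Fin.pos_of_ne_zero h0
            rcases j with ⟨j, hj⟩
            simp only [Fin.lt_def, Fin.ext_iff] at *
            simp at *
            omega)]
    set f : G → G := fun x => (σ (x, 1)).1 with hf
    have hfσ : ∀ x j, σ (x, j) = (f x, j) := hall
    have hfbij : Function.Bijective f := by
      constructor
      · intro x y hxy
        have h1 : σ (x, 1) = σ (y, 1) := by rw [hfσ, hfσ, hxy]
        have h2 := σ.injective h1
        exact congrArg Prod.fst h2
      · intro y
        obtain ⟨⟨x, i⟩, hx⟩ := σ.surjective (y, 1)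
        rw [hfσ] at hx
        exact ⟨x, congrArg Prod.fst hx⟩
    -- relations are preserved
    have hpres : ∀ (i j : Fin 6), i < j → ∀ x y, x⁻¹ * y ∈ B i j ↔ (f x)⁻¹ * f y ∈ B i j := by
      intro i j hij x y
      have h1 := hσ' (x, i) (y, j)
      rw [hfσ, hfσ, hE, rel_up _ _ hij, rel_up _ _ hij] at h1
      exact h1
    have hH := hpres 2 3 (by decide)
    have hK := hpres 2 4 (by decide)
    have hR := hpres 2 5 (by decide)
    have hM := hpres 3 4 (by decide)
    have hN := hpres 3 5 (by decide)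
    have b1 : B 2 3 = H := by simp [hB, A]
    have b2 : B 2 4 = K := by simp [hB, A]
    have b3 : B 2 5 = R := by simp [hB, A]
    have b4 : B 3 4 = M := by simp [hB, A]
    have b5 : B 3 5 = N := by simp [hB, A]
    rw [b1] at hH; rw [b2] at hK; rw [b3] at hR; rw [b4] at hM; rw [b5] at hN
    -- normalise
    set a := f 1 with ha
    have hf' : ∀ x, a⁻¹ * f x = x := by
      have hred : ∀ x y, (a⁻¹ * f x)⁻¹ * (a⁻¹ * f y) = (f x)⁻¹ * f y := by
        intro x y; group
      refine hrig (fun x => a⁻¹ * f x) ((Group.mulLeft_bijective a⁻¹).comp hfbij) (by simp [ha])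
        ?_ ?_ ?_ ?_ ?_
      · intro x y; rw [hH, hred]
      · intro x y; rw [hK, hred]
      · intro x y; rw [hR, hred]
      · intro x y; rw [hM, hred]
      · intro x y; rw [hN, hred]
    refine ⟨a, ?_⟩
    apply Equiv.ext
    rintro ⟨x, j⟩
    rw [hfσ, lmul_apply]
    have : f x = a * x := by
      have := congrArg (fun z => a * z) (hf' x)
      simpa using this
    rw [this]
  refine ⟨G × Fin 6, T, ⟨?_⟩, ?_⟩
  · refine (MulEquiv.ofBijective (toAut P B hP1 hP) ⟨?_, ?_⟩).symm
    · intro a b hab
      have h1 : lmul a = lmul b := congrArg Subtype.val hab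
      have h2 := congrArg (fun σ => (σ ((1 : G), (0 : Fin 6))).1) h1
      simpa [lmul_apply] using h2
    · rintro ⟨σ, hσ⟩
      obtain ⟨a, rfl⟩ := hsurj σ hσ
      exact ⟨a, rfl⟩
  · -- at most six orbits
    have hq : Function.Surjective (fun i : ULift.{u} (Fin 6) =>
        (Quotient.mk'' ((1 : G), i.down) : MulAction.orbitRel.Quotient T.Aut (G × Fin 6))) := by
      intro q
      induction q using Quotient.inductionOn' with
      | h v =>
        obtain ⟨x, i⟩ := v
        refine ⟨⟨i⟩, ?_⟩
        apply Quotient.sound'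
        change (1, i) ∈ MulAction.orbit T.Aut (x, i)
        refine ⟨⟨lmul x⁻¹, lmul_mem hP1 hP x⁻¹⟩, ?_⟩
        change lmul x⁻¹ (x, i) = (1, i)
        rw [lmul_apply]
        simp
    refine (Cardinal.mk_le_of_surjective hq).trans ?_
    simp

end Pool.Agent.Results.MP_4ac3ef_co.OrbitBound
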